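import Mathlib

/-!
Disc automorphisms, the degree two maps used in Koebe osculation, and square roots on the disc.
-/

open Metric Set Complex Filter Topology
open scoped ComplexConjugate

namespace Pool.Agent.Hhelper68

/-- The disc involution exchanging `0` and `a`. -/
noncomputable def mob (a z : ℂ) : ℂ := (a - z) / (1 - conj a * z)

lemma mob_den {a z : ℂ} (ha : ‖a‖ < 1) (hz : ‖z‖ < 1) : 1 - conj a * z ≠ 0 := by
  intro h
  have h1 : conj a * z = 1 := (sub_eq_zero.mp h).symm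
  have h2 : ‖conj a * z‖ = 1 := by rw [h1, norm_one]
  rw [norm_mul, RCLike.norm_conj] at h2
  nlinarith [norm_nonneg a, norm_nonneg z]

lemma mob_normSq_den (a z : ℂ) :
    ‖1 - conj a * z‖ ^ 2 - ‖a - z‖ ^ 2 = (1 - ‖a‖ ^ 2) * (1 - ‖z‖ ^ 2) := by
  rw [← Complex.normSq_eq_norm_sq, ← Complex.normSq_eq_norm_sq, ← Complex.normSq_eq_norm_sq,
    ← Complex.normSq_eq_norm_sq]
  simp only [Complex.normSq_apply, Complex.sub_re, Complex.sub_im, Complex.mul_re,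
    Complex.mul_im, Complex.one_re, Complex.one_im, Complex.conj_re, Complex.conj_im]
  ring

lemma one_sub_mob {a z : ℂ} (ha : ‖a‖ < 1) (hz : ‖z‖ < 1) :
    1 - ‖mob a z‖ ^ 2 = (1 - ‖a‖ ^ 2) * (1 - ‖z‖ ^ 2) / ‖1 - conj a * z‖ ^ 2 := by
  have h1 := mob_den ha hz
  have h2 : ‖1 - conj a * z‖ ≠ 0 := norm_ne_zero_iff.mpr h1
  rw [mob, norm_div, ← mob_normSq_den, div_pow, sub_div, div_self (pow_ne_zero 2 h2)]

lemma mob_norm_lt {a z : ℂ} (ha : ‖a‖ < 1) (hz : ‖z‖ < 1) : ‖mob a z‖ < 1 := by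
  have h1 := mob_den ha hz
  have h2 : 0 < ‖1 - conj a * z‖ := norm_pos_iff.mpr h1
  have h3 := one_sub_mob ha hz
  have h4 : 0 < 1 - ‖a‖ ^ 2 := by nlinarith [norm_nonneg a]
  have h5 : 0 < 1 - ‖z‖ ^ 2 := by nlinarith [norm_nonneg z]
  have h6 : 0 < 1 - ‖mob a z‖ ^ 2 := by rw [h3]; positivity
  nlinarith [norm_nonneg (mob a z)]

lemma mob_mapsTo {a : ℂ} (ha : ‖a‖ < 1) : MapsTo (mob a) (ball 0 1) (ball 0 1) := by
  intro z hz
  rw [mem_ball_zero_iff] at hz ⊢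
  exact mob_norm_lt ha hz

lemma mob_zero (a : ℂ) : mob a 0 = a := by simp [mob]

lemma mob_self {a : ℂ} : mob a a = 0 := by simp [mob]

lemma mob_mob {a z : ℂ} (ha : ‖a‖ < 1) (hz : ‖z‖ < 1) : mob a (mob a z) = z := by
  have h1 := mob_den ha hz
  have h2 := mob_den ha (mob_norm_lt ha hz)
  have h3 : (1 : ℂ) - conj a * a ≠ 0 := by
    have := mob_den ha ha
    simpa using this
  rw [mob, div_eq_iff h2, mob]
  generalize conj a = b at *
  have e : a - z = (a - z) / (1 - b * z) * (1 - b * z) := by rw [div_mul_cancel₀ _ h1]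
  generalize (a - z) / (1 - b * z) = w at *
  linear_combination e

lemma mob_eq_zero {a z : ℂ} (ha : ‖a‖ < 1) (hz : ‖z‖ < 1) (h : mob a z = 0) : z = a := by
  have := mob_mob ha hz
  rw [h, mob_zero] at this
  exact this.symm

lemma mob_injOn {a : ℂ} (ha : ‖a‖ < 1) : InjOn (mob a) (ball 0 1) := by
  intro z hz w hw h
  rw [mem_ball_zero_iff] at hz hw
  rw [← mob_mob ha hz, h, mob_mob ha hw]

lemma mob_hasDerivAt {a z : ℂ} (ha : ‖a‖ < 1) (hz : ‖z‖ < 1) :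
    HasDerivAt (mob a) ((‖a‖ ^ 2 - 1) / (1 - conj a * z) ^ 2) z := by
  have h1 := mob_den ha hz
  have h2 : HasDerivAt (fun z => a - z) (-1) z := by
    simpa using (hasDerivAt_id z).const_sub a
  have h3 : HasDerivAt (fun z => 1 - conj a * z) (-(conj a)) z := by
    simpa using ((hasDerivAt_id z).const_mul (conj a)).const_sub 1
  have h5 : conj a * a = (‖a‖ : ℂ) ^ 2 := by
    rw [mul_comm, Complex.mul_conj, Complex.normSq_eq_norm_sq]; push_cast; rfl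
  refine (h2.fun_div h3 h1).congr_deriv ?_
  rw [← h5]
  congr 1
  ring

lemma mob_differentiableOn {a : ℂ} (ha : ‖a‖ < 1) : DifferentiableOn ℂ (mob a) (ball 0 1) :=
  fun z hz => (mob_hasDerivAt ha (by simpa using hz)).differentiableAt.differentiableWithinAt

lemma mob_norm_le {a z : ℂ} (ha : ‖a‖ < 1) (hz : ‖z‖ < 1) :
    ‖mob a z‖ ≤ (‖a‖ + ‖z‖) / (1 + ‖a‖ * ‖z‖) := by
  have h1 := mob_den ha hz
  have h2 : 0 < ‖1 - conj a * z‖ := norm_pos_iff.mpr h1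
  have h3 := one_sub_mob ha hz
  have h4 : 0 < 1 - ‖a‖ ^ 2 := by nlinarith [norm_nonneg a]
  have h5 : 0 < 1 - ‖z‖ ^ 2 := by nlinarith [norm_nonneg z]
  have h6 : ‖1 - conj a * z‖ ≤ 1 + ‖a‖ * ‖z‖ := by
    calc ‖1 - conj a * z‖ ≤ ‖(1:ℂ)‖ + ‖conj a * z‖ := norm_sub_le _ _
      _ = 1 + ‖a‖ * ‖z‖ := by rw [norm_one, norm_mul, RCLike.norm_conj]
  have h7 : 0 < 1 + ‖a‖ * ‖z‖ := by positivity
  have h8 : (1 - ‖a‖ ^ 2) * (1 - ‖z‖ ^ 2) / (1 + ‖a‖ * ‖z‖) ^ 2 ≤ 1 - ‖mob a z‖ ^ 2 := by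
    rw [h3]
    gcongr
  have h9 : ‖mob a z‖ ^ 2 ≤ ((‖a‖ + ‖z‖) / (1 + ‖a‖ * ‖z‖)) ^ 2 := by
    have : ((‖a‖ + ‖z‖) / (1 + ‖a‖ * ‖z‖)) ^ 2 =
        1 - (1 - ‖a‖ ^ 2) * (1 - ‖z‖ ^ 2) / (1 + ‖a‖ * ‖z‖) ^ 2 := by
      field_simp; ring
    rw [this]; linarith
  exact (pow_le_pow_iff_left₀ (norm_nonneg _) (by positivity) two_ne_zero).mp h9

/-- The degree two Blaschke product with critical value `α ^ 2` and value `0` at `0`. -/
noncomputable def kap (α z : ℂ) : ℂ := mob (α ^ 2) ((mob α z) ^ 2)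

/-- The modulus of the derivative of `kap α` at `0`, as a function of `‖α‖`. -/
noncomputable def tt (ρ : ℝ) : ℝ := 2 * ρ / (1 + ρ ^ 2)

lemma tt_pos {ρ : ℝ} (h : 0 < ρ) : 0 < tt ρ := by unfold tt; positivity

lemma tt_lt_one {ρ : ℝ} (h1 : ρ < 1) : tt ρ < 1 := by
  unfold tt
  rw [div_lt_one (by positivity)]
  nlinarith [sq_nonneg (1 - ρ), sq_pos_of_pos (sub_pos.mpr h1)]

lemma norm_sq_lt {z : ℂ} (hz : ‖z‖ < 1) : ‖z ^ 2‖ < 1 := by
  rw [norm_pow]; nlinarith [norm_nonneg z]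

lemma kap_eq {α z : ℂ} (hα : ‖α‖ < 1) (hz : ‖z‖ < 1) :
    kap α z = z * mob (2 * α / (1 + ‖α‖ ^ 2)) z := by
  have hc : conj α * α = (‖α‖ : ℂ) ^ 2 := by
    rw [mul_comm, Complex.mul_conj, Complex.normSq_eq_norm_sq]; push_cast; rfl
  have hr : (1 : ℂ) + (‖α‖ : ℂ) ^ 2 ≠ 0 := by
    have : (0:ℝ) < 1 + ‖α‖ ^ 2 := by positivity
    exact_mod_cast this.ne'
  have h1 := mob_den hα hz
  have h2 : ‖(mob α z) ^ 2‖ < 1 := norm_sq_lt (mob_norm_lt hα hz)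
  have h3 := mob_den (norm_sq_lt hα) h2
  have hτ : ‖2 * α / (1 + (‖α‖ : ℂ) ^ 2)‖ < 1 := by
    have e : ‖(1 : ℂ) + (‖α‖ : ℂ) ^ 2‖ = 1 + ‖α‖ ^ 2 := by
      have : (1 : ℂ) + (‖α‖ : ℂ) ^ 2 = ((1 + ‖α‖ ^ 2 : ℝ) : ℂ) := by push_cast; ring
      rw [this, Complex.norm_real, Real.norm_of_nonneg (by positivity)]
    rw [norm_div, norm_mul, e]
    simpa [tt] using tt_lt_one hα
  have h4 := mob_den hτ hz
  have hcτ : conj (2 * α / (1 + (‖α‖ : ℂ) ^ 2)) = 2 * conj α / (1 + (‖α‖ : ℂ) ^ 2) := by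
    have h2c : conj (2:ℂ) = 2 := Complex.conj_ofNat 2
    simp [h2c]
  rw [hcτ] at h4
  have h5 : (1 : ℂ) + (‖α‖ : ℂ) ^ 2 - 2 * conj α * z ≠ 0 := by
    intro h; apply h4
    field_simp
    linear_combination h
  have h6 : (1 - conj α * z) ^ 2 - conj α ^ 2 * (α - z) ^ 2 ≠ 0 := by
    intro h; apply h3
    rw [map_pow, mob]
    field_simp
    linear_combination h
  have h7 : (1 : ℂ) - (conj α * α) ≠ 0 := by
    have := mob_den hα hα
    simpa using this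
  have h8 : (1 - conj α * z) ^ 2 - conj α ^ 2 * (α - z) ^ 2 =
      (1 - conj α * α) * (1 + conj α * α - 2 * conj α * z) := by ring
  have h9 : α ^ 2 * (1 - conj α * z) ^ 2 - (α - z) ^ 2 =
      z * ((1 - conj α * α) * (2 * α - (1 + conj α * α) * z)) := by ring
  rw [kap, mob, map_pow, mob, div_pow]
  rw [mob, hcτ, ← hc]
  rw [← hc] at hr h5
  generalize conj α = b at *
  have e1 : (α ^ 2 - (α - z) ^ 2 / (1 - b * z) ^ 2) / (1 - b ^ 2 * ((α - z) ^ 2 / (1 - b * z) ^ 2))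
      = (α ^ 2 * (1 - b * z) ^ 2 - (α - z) ^ 2) / ((1 - b * z) ^ 2 - b ^ 2 * (α - z) ^ 2) := by
    have h10 : (1 - b * z) ^ 2 ≠ 0 := pow_ne_zero 2 h1
    rw [← mul_div_mul_right _ _ h10]
    congr 1
    · rw [sub_mul, div_mul_cancel₀ _ h10]
    · rw [sub_mul, mul_assoc, div_mul_cancel₀ _ h10, one_mul]
  rw [e1, h9, h8]
  have e2 : (2 * α / (1 + b * α) - z) / (1 - 2 * b / (1 + b * α) * z) =
      (2 * α - (1 + b * α) * z) / (1 + b * α - 2 * b * z) := by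
    rw [← mul_div_mul_right _ _ hr]
    congr 1
    · rw [sub_mul, div_mul_cancel₀ _ hr]; ring
    · rw [sub_mul, one_mul, mul_right_comm, div_mul_cancel₀ _ hr]
  rw [e2, mul_div_assoc, mul_div_mul_left _ _ h7]

lemma norm_tau (α : ℂ) : ‖2 * α / (1 + (‖α‖ : ℂ) ^ 2)‖ = tt ‖α‖ := by
  have e : ‖(1 : ℂ) + (‖α‖ : ℂ) ^ 2‖ = 1 + ‖α‖ ^ 2 := by
    have : (1 : ℂ) + (‖α‖ : ℂ) ^ 2 = ((1 + ‖α‖ ^ 2 : ℝ) : ℂ) := by push_cast; ring
    rw [this, Complex.norm_real, Real.norm_of_nonneg (by positivity)]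
  rw [norm_div, norm_mul, e, tt]
  norm_num

lemma kap_zero (α : ℂ) : kap α 0 = 0 := by
  rw [kap, mob_zero, mob_self]

lemma kap_mapsTo {α : ℂ} (hα : ‖α‖ < 1) : MapsTo (kap α) (ball 0 1) (ball 0 1) := by
  intro z hz
  rw [mem_ball_zero_iff] at hz ⊢
  exact mob_norm_lt (norm_sq_lt hα) (norm_sq_lt (mob_norm_lt hα hz))

lemma kap_differentiableOn {α : ℂ} (hα : ‖α‖ < 1) :
    DifferentiableOn ℂ (kap α) (ball 0 1) := by
  refine (mob_differentiableOn (norm_sq_lt hα)).comp ((mob_differentiableOn hα).pow 2) ?_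
  intro z hz
  rw [mem_ball_zero_iff] at hz ⊢
  exact norm_sq_lt (mob_norm_lt hα hz)

lemma kap_norm_le {α z : ℂ} (hα : ‖α‖ < 1) (hz : ‖z‖ < 1) :
    ‖kap α z‖ ≤ ‖z‖ * ((tt ‖α‖ + ‖z‖) / (1 + tt ‖α‖ * ‖z‖)) := by
  have hτ : ‖2 * α / (1 + (‖α‖ : ℂ) ^ 2)‖ < 1 := by
    rw [norm_tau]; exact tt_lt_one hα
  rw [kap_eq hα hz, norm_mul]
  have := mob_norm_le hτ hz
  rw [norm_tau] at this
  gcongr

lemma kap_deriv {α : ℂ} (hα : ‖α‖ < 1) : ‖deriv (kap α) 0‖ = tt ‖α‖ := by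
  have hτ : ‖2 * α / (1 + (‖α‖ : ℂ) ^ 2)‖ < 1 := by
    rw [norm_tau]; exact tt_lt_one hα
  have h1 : kap α =ᶠ[𝓝 0] fun z => z * mob (2 * α / (1 + (‖α‖ : ℂ) ^ 2)) z := by
    filter_upwards [ball_mem_nhds (0:ℂ) one_pos] with z hz
    exact kap_eq hα (by simpa using hz)
  rw [h1.deriv_eq]
  have h2 := (hasDerivAt_id (0:ℂ)).mul (mob_hasDerivAt hτ (z := 0) (by simp))
  have h3 := h2.deriv
  have h4 : deriv (fun z => z * mob (2 * α / (1 + (‖α‖ : ℂ) ^ 2)) z) 0 =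
      2 * α / (1 + (‖α‖ : ℂ) ^ 2) := by
    have e : (fun z => z * mob (2 * α / (1 + (‖α‖ : ℂ) ^ 2)) z) =
        (id * mob (2 * α / (1 + (‖α‖ : ℂ) ^ 2))) := rfl
    rw [e, h3]
    simp [mob_zero]
  rw [h4, norm_tau]

/-- Holomorphic square roots on the disc. -/
lemma exists_sqrt {q : ℂ → ℂ} (hq : DifferentiableOn ℂ q (ball 0 1))
    (hne : ∀ z ∈ ball (0:ℂ) 1, q z ≠ 0) :
    ∃ s : ℂ → ℂ, DifferentiableOn ℂ s (ball 0 1) ∧ ∀ z ∈ ball (0:ℂ) 1, s z ^ 2 = q z := by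
  have hq' : DifferentiableOn ℂ (fun z => deriv q z / q z) (ball 0 1) :=
    (hq.deriv isOpen_ball).div hq hne
  obtain ⟨L, hL⟩ := hq'.isExactOn_ball
  have hE : ∀ z ∈ ball (0:ℂ) 1, HasDerivAt (fun z => q z * Complex.exp (-L z)) 0 z := by
    intro z hz
    have h1 : HasDerivAt q (deriv q z) z :=
      ((hq z hz).differentiableAt (isOpen_ball.mem_nhds hz)).hasDerivAt
    have h2 := (hL z hz).neg.cexp
    have h3 := h1.mul h2
    refine h3.congr_deriv ?_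
    have := hne z hz
    field_simp
    ring
  have hconst : ∀ z ∈ ball (0:ℂ) 1, q z * Complex.exp (-L z) = q 0 * Complex.exp (-L 0) := by
    intro z hz
    have hd : DifferentiableOn ℂ (fun z => q z * Complex.exp (-L z)) (ball 0 1) :=
      fun w hw => (hE w hw).differentiableAt.differentiableWithinAt
    refine isOpen_ball.is_const_of_deriv_eq_zero (convex_ball (0:ℂ) 1).isPreconnected hd
      (fun w hw => (hE w hw).deriv) hz (by simp)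
  obtain ⟨c, hc⟩ := IsAlgClosed.exists_pow_nat_eq (q 0 * Complex.exp (-L 0)) two_pos
  refine ⟨fun z => c * Complex.exp (L z / 2), ?_, ?_⟩
  · intro z hz
    exact ((hL z hz).differentiableAt.div_const 2).cexp.const_mul c |>.differentiableWithinAt
  · intro z hz
    rw [mul_pow, hc, ← hconst z hz, ← Complex.exp_nat_mul, mul_assoc, ← Complex.exp_add]
    have : -L z + ((2:ℕ):ℂ) * (L z / 2) = 0 := by push_cast; ring
    rw [this, Complex.exp_zero, mul_one]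

end Pool.Agent.Hhelper68
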