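import Mathlib
import Pool.Agent.Hhelper68.Mobius

/-!
Univalent self-maps of the disc fixing the origin, and the square root lifts used in Koebe
osculation.
-/

open Metric Set Complex Filter Topology
open scoped ComplexConjugate

namespace Pool.Agent.Hhelper68

/-- An injective holomorphic function has nonvanishing derivative. -/
theorem deriv_ne_zero_of_injOn {f : ℂ → ℂ} {s : Set ℂ} (hs : IsOpen s)
    (hf : DifferentiableOn ℂ f s) (hinj : InjOn f s) {z : ℂ} (hz : z ∈ s) : deriv f z ≠ 0 := by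
  intro h0
  have hsz : s ∈ 𝓝 z := hs.mem_nhds hz
  have hA : AnalyticAt ℂ f z := hf.analyticAt hsz
  have hF : AnalyticAt ℂ (fun w => f w - f z) z := hA.sub analyticAt_const
  have hnc : ¬ ∀ᶠ w in 𝓝 z, f w - f z = 0 := by
    intro h
    have h1 : ∀ᶠ w in 𝓝 z, w = z := by
      filter_upwards [h, hsz] with w hw hws
      exact hinj hws hz (sub_eq_zero.mp hw)
    have h2 : (𝓝[≠] z).NeBot := inferInstance
    have h3 : ∀ᶠ w in 𝓝[≠] z, False := by
      filter_upwards [h1.filter_mono nhdsWithin_le_nhds, self_mem_nhdsWithin] with w hw hw2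
      exact hw2 hw
    exact h3.exists.elim fun _ h => h
  obtain ⟨n, g, hg, hgz, hfg⟩ := hF.exists_eventuallyEq_pow_smul_nonzero_iff.mpr hnc
  have hn0 : n ≠ 0 := by
    rintro rfl
    have := hfg.self_of_nhds
    simp at this
    exact hgz this.symm
  have hn1 : n ≠ 1 := by
    rintro rfl
    have h1 : HasDerivAt (fun w => f w - f z) 0 z := by
      have := (hA.differentiableAt.hasDerivAt).sub_const (f z)
      rwa [h0] at this
    have h2 : HasDerivAt (fun w => (w - z) ^ 1 • g w) (g z) z := by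
      have h3 : HasDerivAt (fun w => w - z) 1 z := (hasDerivAt_id z).sub_const z
      have h4 := h3.fun_mul hg.differentiableAt.hasDerivAt
      simpa using h4
    have h3 := h2.congr_of_eventuallyEq hfg
    exact hgz (h3.unique h1)
  obtain ⟨c, hc⟩ := IsAlgClosed.exists_pow_nat_eq (g z) (Nat.pos_of_ne_zero hn0)
  have hc0 : c ≠ 0 := by
    rintro rfl
    rw [zero_pow hn0] at hc
    exact hgz hc.symm
  set h : ℂ → ℂ := fun w => c * Complex.exp (Complex.log (g w / g z) / n) with hh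
  have hgan : AnalyticAt ℂ (fun w => g w / g z) z := hg.div_const
  have hslit : g z / g z ∈ slitPlane := by
    rw [div_self hgz]; exact one_mem_slitPlane
  have hlog : AnalyticAt ℂ (fun w => Complex.log (g w / g z)) z := hgan.clog hslit
  have hhan : AnalyticAt ℂ h z := by
    exact analyticAt_const.mul (hlog.div_const.cexp)
  have hnC : (n : ℂ) ≠ 0 := Nat.cast_ne_zero.mpr hn0
  have hhpow : ∀ᶠ w in 𝓝 z, h w ^ n = g w := by
    have h1 : ∀ᶠ w in 𝓝 z, g w ≠ 0 := hg.continuousAt.eventually_ne hgz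
    filter_upwards [h1] with w hw
    rw [hh]
    simp only
    rw [mul_pow, hc, ← Complex.exp_nat_mul, mul_div_cancel₀ _ hnC,
      Complex.exp_log (div_ne_zero hw hgz), mul_div_cancel₀ _ hgz]
  set φ : ℂ → ℂ := fun w => (w - z) * h w with hφ
  have hφan : AnalyticAt ℂ φ z := (analyticAt_id.sub analyticAt_const).mul hhan
  have hhz : h z = c := by
    rw [hh]; simp [div_self hgz]
  have hφd : HasDerivAt φ c z := by
    have h3 : HasDerivAt (fun w => w - z) 1 z := (hasDerivAt_id z).sub_const z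
    have h4 := h3.fun_mul hhan.differentiableAt.hasDerivAt
    rw [hhz] at h4
    simpa using h4
  have hφs : HasStrictDerivAt φ c z := by
    have := hφan.hasStrictDerivAt
    rwa [hφd.deriv] at this
  have hφ0 : φ z = 0 := by rw [hφ]; simp
  have hmap := hφs.map_nhds_eq hc0
  rw [hφ0] at hmap
  have hT : {w | w ∈ s ∧ f w - f z = φ w ^ n} ∈ 𝓝 z := by
    filter_upwards [hsz, hfg, hhpow] with w hw1 hw2 hw3
    refine ⟨hw1, ?_⟩
    rw [hw2, hφ]
    simp only
    rw [mul_pow, hw3, smul_eq_mul]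
  have himg : φ '' {w | w ∈ s ∧ f w - f z = φ w ^ n} ∈ 𝓝 (0:ℂ) := by
    rw [← hmap]; exact image_mem_map hT
  obtain ⟨δ, hδ, hball⟩ := Metric.mem_nhds_iff.mp himg
  set ζ : ℂ := Complex.exp (2 * Real.pi * I / n) with hζ
  have hprim : IsPrimitiveRoot ζ n := Complex.isPrimitiveRoot_exp n hn0
  have hζn : ‖ζ‖ = 1 := hprim.norm'_eq_one hn0
  have hv1 : ((δ / 2 : ℝ) : ℂ) ∈ ball (0:ℂ) δ := by
    rw [mem_ball_zero_iff, Complex.norm_real, Real.norm_of_nonneg (by positivity)]
    linarith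
  have hv2 : ζ * ((δ / 2 : ℝ) : ℂ) ∈ ball (0:ℂ) δ := by
    rw [mem_ball_zero_iff, norm_mul, hζn, one_mul, Complex.norm_real,
      Real.norm_of_nonneg (by positivity)]
    linarith
  obtain ⟨x, ⟨hxs, hx⟩, hxv⟩ := hball hv1
  obtain ⟨y, ⟨hys, hy⟩, hyv⟩ := hball hv2
  have hxy : f x = f y := by
    have : f x - f z = f y - f z := by
      rw [hx, hy, hxv, hyv, mul_pow, hprim.pow_eq_one, one_mul]
    exact sub_left_injective this
  have hxy' := hinj hxs hys hxy
  rw [hxy'] at hxv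
  rw [hxv] at hyv
  have hδ0 : ((δ / 2 : ℝ) : ℂ) ≠ 0 := by
    rw [Ne, Complex.ofReal_eq_zero]; positivity
  have hζ1 : ζ = 1 := by
    have : (1 - ζ) * ((δ / 2 : ℝ) : ℂ) = 0 := by rw [sub_mul, one_mul, ← hyv, sub_self]
    rcases mul_eq_zero.mp this with h | h
    · exact (sub_eq_zero.mp h).symm
    · exact absurd h hδ0
  rw [hζ1] at hprim
  have := hprim.eq_orderOf
  rw [orderOf_one] at this
  exact hn1 this

/-- Univalent self-maps of the unit disc fixing the origin. -/
structure Uni (G : ℂ → ℂ) : Prop where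
  diff : DifferentiableOn ℂ G (ball 0 1)
  maps : MapsTo G (ball 0 1) (ball 0 1)
  inj : InjOn G (ball 0 1)
  zero : G 0 = 0

lemma Uni.norm_lt {G : ℂ → ℂ} (hG : Uni G) {z : ℂ} (hz : ‖z‖ < 1) : ‖G z‖ < 1 := by
  have := hG.maps (show z ∈ ball (0:ℂ) 1 by simpa using hz)
  simpa using this

lemma Uni.hasDerivAt {G : ℂ → ℂ} (hG : Uni G) {z : ℂ} (hz : ‖z‖ < 1) :
    HasDerivAt G (deriv G z) z :=
  ((hG.diff z (by simpa using hz)).differentiableAt
    (isOpen_ball.mem_nhds (by simpa using hz))).hasDerivAt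

lemma Uni.deriv_ne {G : ℂ → ℂ} (hG : Uni G) {z : ℂ} (hz : ‖z‖ < 1) : deriv G z ≠ 0 :=
  deriv_ne_zero_of_injOn isOpen_ball hG.diff hG.inj (by simpa using hz)

lemma Uni.norm_le {G : ℂ → ℂ} (hG : Uni G) {z : ℂ} (hz : ‖z‖ < 1) : ‖G z‖ ≤ ‖z‖ :=
  Complex.norm_le_norm_of_mapsTo_ball hG.diff
    (hG.maps.mono_right ball_subset_closedBall) hG.zero hz

lemma Uni.deriv_le {G : ℂ → ℂ} (hG : Uni G) : ‖deriv G 0‖ ≤ 1 :=
  Complex.norm_deriv_le_one_of_mapsTo_ball hG.diff
    (by rw [hG.zero]; exact hG.maps.mono_right ball_subset_closedBall) one_pos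

lemma Uni.deriv_pos {G : ℂ → ℂ} (hG : Uni G) : 0 < ‖deriv G 0‖ :=
  norm_pos_iff.mpr (hG.deriv_ne (by simp))

/-- If the image of a univalent map does not contain a closed disc then it misses a point of the
bounding circle. -/
lemma Uni.exists_missing {G : ℂ → ℂ} (hG : Uni G) {r : ℝ} (hr0 : 0 < r)
    (h : ¬ closedBall (0:ℂ) r ⊆ G '' ball 0 1) : ∃ a : ℂ, ‖a‖ = r ∧ a ∉ G '' ball 0 1 := by
  by_contra hcon
  push Not at hcon
  obtain ⟨w0, hw0, hw0'⟩ := Set.not_subset.mp h
  have hw0r : w0 ∈ ball (0:ℂ) r := by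
    rw [mem_closedBall_zero_iff] at hw0
    rw [mem_ball_zero_iff]
    refine lt_of_le_of_ne hw0 fun h => hw0' (hcon w0 h)
  have hne : ∀ z ∈ ball (0:ℂ) 1, G z - w0 ≠ 0 := by
    intro z hz h
    exact hw0' ⟨z, hz, sub_eq_zero.mp h⟩
  have hq : DifferentiableOn ℂ (fun z => deriv G z / (G z - w0)) (ball 0 1) :=
    (hG.diff.deriv isOpen_ball).div (hG.diff.sub_const w0) hne
  obtain ⟨Q, hQ⟩ := hq.isExactOn_ball
  set g := Function.invFunOn G (ball 0 1) with hg
  have hgG : ∀ z ∈ ball (0:ℂ) 1, g (G z) = z := fun z hz =>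
    hG.inj.leftInvOn_invFunOn hz
  have hP : ∀ w ∈ sphere (0:ℂ) r, HasDerivWithinAt (fun w => Q (g w)) ((w - w0)⁻¹)
      (sphere (0:ℂ) r) w := by
    intro w hw
    obtain ⟨z, hz, rfl⟩ := hcon w (by simpa using hw)
    have hz' : ‖z‖ < 1 := by simpa using hz
    have hA : AnalyticAt ℂ G z := hG.diff.analyticAt (isOpen_ball.mem_nhds hz)
    have hs := hA.hasStrictDerivAt
    have hd := hG.deriv_ne hz'
    have hgs : HasStrictDerivAt g (deriv G z)⁻¹ (G z) := by
      refine hs.to_local_left_inverse hd ?_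
      filter_upwards [isOpen_ball.mem_nhds hz] with x hx
      exact hgG x hx
    have h1 := hQ z hz
    rw [← hgG z hz] at h1
    have h2 := h1.comp (G z) hgs.hasDerivAt
    rw [hgG z hz] at h2
    refine (h2.congr_deriv ?_).hasDerivWithinAt
    have := hne z hz
    field_simp
  have h1 := circleIntegral.integral_eq_zero_of_hasDerivWithinAt' (c := 0) (R := r)
    (by simpa [abs_of_pos hr0] using hP)
  have h2 := circleIntegral.integral_sub_inv_of_mem_ball hw0r
  rw [h1] at h2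
  have h3 : (2 : ℂ) * Real.pi * I ≠ 0 := by
    simp [Real.pi_ne_zero]
  exact h3 h2.symm

end Pool.Agent.Hhelper68
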