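import Mathlib
import Pool.Agent.Hhelper68.Univ

/-!
Square root lifts of univalent self-maps of the disc.
-/

open Metric Set Complex Filter Topology
open scoped ComplexConjugate

namespace Pool.Agent.Hhelper68

/-- Lift of a univalent map that misses the critical value. -/
lemma Uni.lift_miss {G : ℂ → ℂ} (hG : Uni G) {α : ℂ} (hα : ‖α‖ < 1)
    (hmiss : α ^ 2 ∉ G '' ball 0 1) :
    ∃ G' : ℂ → ℂ, Uni G' ∧ ∀ z ∈ ball (0:ℂ) 1, kap α (G' z) = G z := by
  have ha := norm_sq_lt hα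
  have hqd : DifferentiableOn ℂ (fun z => mob (α ^ 2) (G z)) (ball 0 1) :=
    (mob_differentiableOn ha).comp hG.diff hG.maps
  have hqne : ∀ z ∈ ball (0:ℂ) 1, mob (α ^ 2) (G z) ≠ 0 := by
    intro z hz h
    exact hmiss ⟨z, hz, mob_eq_zero ha (hG.norm_lt (by simpa using hz)) h⟩
  obtain ⟨S, hSd, hS, hS0⟩ : ∃ S : ℂ → ℂ, DifferentiableOn ℂ S (ball 0 1) ∧
      (∀ z ∈ ball (0:ℂ) 1, S z ^ 2 = mob (α ^ 2) (G z)) ∧ S 0 = α := by
    obtain ⟨s, hsd, hs⟩ := exists_sqrt hqd hqne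
    have h0 : s 0 ^ 2 = α ^ 2 := by
      rw [hs 0 (by simp), hG.zero, mob_zero]
    rcases sq_eq_sq_iff_eq_or_eq_neg.mp h0 with h | h
    · exact ⟨s, hsd, hs, h⟩
    · refine ⟨fun z => -s z, hsd.neg, fun z hz => ?_, ?_⟩
      · rw [neg_sq]; exact hs z hz
      · change -s 0 = α
        rw [h, neg_neg]
  have hSn : ∀ z ∈ ball (0:ℂ) 1, ‖S z‖ < 1 := by
    intro z hz
    have h1 := mob_norm_lt ha (hG.norm_lt (show ‖z‖ < 1 by simpa using hz))
    rw [← hS z hz, norm_pow] at h1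
    nlinarith [norm_nonneg (S z)]
  have hkap : ∀ z ∈ ball (0:ℂ) 1, kap α (mob α (S z)) = G z := by
    intro z hz
    rw [kap, mob_mob hα (hSn z hz), hS z hz, mob_mob ha (hG.norm_lt (by simpa using hz))]
  refine ⟨fun z => mob α (S z), ⟨?_, ?_, ?_, ?_⟩, hkap⟩
  · exact (mob_differentiableOn hα).comp hSd (fun z hz => by simpa using hSn z hz)
  · intro z hz
    exact mob_mapsTo hα (by simpa using hSn z hz)
  · intro z hz w hw h
    apply hG.inj hz hw
    rw [← hkap z hz, ← hkap w hw]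
    simp only at h
    rw [h]
  · rw [hS0, mob_self]

/-- The odd square root transform. -/
lemma exists_odd_sqrt {N : ℂ → ℂ} (hN : Uni N) :
    ∃ S : ℂ → ℂ, DifferentiableOn ℂ S (ball 0 1) ∧ MapsTo S (ball 0 1) (ball 0 1) ∧
      InjOn S (ball 0 1) ∧ ∀ z ∈ ball (0:ℂ) 1, S z ^ 2 = N (z ^ 2) := by
  have hqd : DifferentiableOn ℂ (dslope N 0) (ball 0 1) :=
    (Complex.differentiableOn_dslope (ball_mem_nhds (0:ℂ) one_pos)).mpr hN.diff
  have hqe : ∀ z : ℂ, z * dslope N 0 z = N z := by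
    intro z
    have := sub_smul_dslope N 0 z
    rw [hN.zero, sub_zero, sub_zero, smul_eq_mul] at this
    exact this
  have hqne : ∀ z ∈ ball (0:ℂ) 1, dslope N 0 z ≠ 0 := by
    intro z hz h
    by_cases h0 : z = 0
    · rw [h0, dslope_same] at h
      exact hN.deriv_ne (by simp) h
    · have h1 := hqe z
      rw [h, mul_zero] at h1
      exact h0 (hN.inj hz (by simp) (by rw [← h1, hN.zero]))
  obtain ⟨s, hsd, hs⟩ := exists_sqrt hqd hqne
  have hsq : ∀ z ∈ ball (0:ℂ) 1, z ^ 2 ∈ ball (0:ℂ) 1 := by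
    intro z hz
    rw [mem_ball_zero_iff] at hz ⊢
    exact norm_sq_lt hz
  have hS : ∀ z ∈ ball (0:ℂ) 1, (z * s (z ^ 2)) ^ 2 = N (z ^ 2) := by
    intro z hz
    rw [mul_pow, hs _ (hsq z hz), hqe]
  refine ⟨fun z => z * s (z ^ 2), ?_, ?_, ?_, hS⟩
  · refine differentiableOn_id.mul (hsd.comp (differentiableOn_id.pow 2) ?_)
    intro z hz
    exact hsq z hz
  · intro z hz
    have h1 := hN.norm_lt (show ‖z ^ 2‖ < 1 by simpa using hsq z hz)
    rw [← hS z hz, norm_pow] at h1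
    rw [mem_ball_zero_iff]
    nlinarith [norm_nonneg (z * s (z ^ 2))]
  · intro z hz w hw h
    simp only at h
    have h1 : N (z ^ 2) = N (w ^ 2) := by rw [← hS z hz, ← hS w hw, h]
    have h2 := hN.inj (hsq z hz) (hsq w hw) h1
    rcases sq_eq_sq_iff_eq_or_eq_neg.mp h2 with h3 | h3
    · exact h3
    · rw [h2, h3] at h
      have hsne : s (w ^ 2) ≠ 0 := by
        intro h4
        have := hs _ (hsq w hw)
        rw [h4] at this
        exact hqne _ (hsq w hw) (by rw [← this]; ring)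
      have h5 : w * s (w ^ 2) = 0 := by linear_combination (-1/2 : ℂ) * h
      rcases mul_eq_zero.mp h5 with h6 | h6
      · rw [h3, h6, neg_zero]
      · exact absurd h6 hsne

/-- Lift of a univalent map that takes the critical value. -/
lemma Uni.lift_hit {G : ℂ → ℂ} (hG : Uni G) {α γ : ℂ} (hα : ‖α‖ < 1) (hγ : ‖γ‖ < 1)
    (hhit : G (γ ^ 2) = α ^ 2) :
    ∃ G' : ℂ → ℂ, Uni G' ∧ ∀ z ∈ ball (0:ℂ) 1, kap α (G' z) = G (kap γ z) := by
  have ha := norm_sq_lt hα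
  have hc := norm_sq_lt hγ
  have hN : Uni (fun z => mob (α ^ 2) (G (mob (γ ^ 2) z))) := by
    refine ⟨?_, ?_, ?_, ?_⟩
    · exact (mob_differentiableOn ha).comp (hG.diff.comp (mob_differentiableOn hc)
        (mob_mapsTo hc)) (hG.maps.comp (mob_mapsTo hc))
    · exact (mob_mapsTo ha).comp (hG.maps.comp (mob_mapsTo hc))
    · exact (mob_injOn ha).comp (hG.inj.comp (mob_injOn hc) (mob_mapsTo hc))
        (hG.maps.comp (mob_mapsTo hc))
    · rw [mob_zero, hhit, mob_self]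
  obtain ⟨S, hSd, hSm, hSi, hS, hS0⟩ : ∃ S : ℂ → ℂ, DifferentiableOn ℂ S (ball 0 1) ∧
      MapsTo S (ball 0 1) (ball 0 1) ∧ InjOn S (ball 0 1) ∧
      (∀ z ∈ ball (0:ℂ) 1, S z ^ 2 = mob (α ^ 2) (G (mob (γ ^ 2) (z ^ 2)))) ∧ S γ = α := by
    obtain ⟨s, hsd, hsm, hsi, hs⟩ := exists_odd_sqrt hN
    have h0 : s γ ^ 2 = α ^ 2 := by
      rw [hs γ (by simpa using hγ), mob_self, hG.zero, mob_zero]
    rcases sq_eq_sq_iff_eq_or_eq_neg.mp h0 with h | h
    · exact ⟨s, hsd, hsm, hsi, hs, h⟩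
    · refine ⟨fun z => -s z, hsd.neg, ?_, ?_, fun z hz => ?_, ?_⟩
      · intro z hz
        have := hsm hz
        simpa using this
      · intro z hz w hw hzw
        exact hsi hz hw (neg_injective hzw)
      · rw [neg_sq]; exact hs z hz
      · change -s γ = α
        rw [h, neg_neg]
  have hkap : ∀ z ∈ ball (0:ℂ) 1, kap α (mob α (S (mob γ z))) = G (kap γ z) := by
    intro z hz
    have hm := mob_mapsTo hγ hz
    have hm' : ‖mob γ z‖ < 1 := by simpa using hm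
    have hSn : ‖S (mob γ z)‖ < 1 := by simpa using hSm hm
    have h1 : ‖mob (γ ^ 2) (mob γ z ^ 2)‖ < 1 := mob_norm_lt hc (norm_sq_lt hm')
    rw [kap, mob_mob hα hSn, hS _ hm, mob_mob ha (hG.norm_lt h1), kap]
  refine ⟨fun z => mob α (S (mob γ z)), ⟨?_, ?_, ?_, ?_⟩, hkap⟩
  · exact (mob_differentiableOn hα).comp (hSd.comp (mob_differentiableOn hγ) (mob_mapsTo hγ))
      (hSm.comp (mob_mapsTo hγ))
  · exact (mob_mapsTo hα).comp (hSm.comp (mob_mapsTo hγ))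
  · exact (mob_injOn hα).comp (hSi.comp (mob_injOn hγ) (mob_mapsTo hγ))
      (hSm.comp (mob_mapsTo hγ))
  · rw [mob_zero, hS0, mob_self]

lemma kap_hasDerivAt_zero {α : ℂ} (hα : ‖α‖ < 1) : HasDerivAt (kap α) (deriv (kap α) 0) 0 :=
  ((kap_differentiableOn hα 0 (by simp)).differentiableAt
    (isOpen_ball.mem_nhds (by simp))).hasDerivAt

/-- Chain rule at the origin, case of a missed value. -/
lemma deriv_rel_miss {G G' : ℂ → ℂ} (hG' : Uni G') {α : ℂ} (hα : ‖α‖ < 1)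
    (h : ∀ z ∈ ball (0:ℂ) 1, kap α (G' z) = G z) : tt ‖α‖ * ‖deriv G' 0‖ = ‖deriv G 0‖ := by
  have h1 := kap_hasDerivAt_zero hα
  rw [← hG'.zero] at h1
  have h2 := h1.comp 0 (hG'.hasDerivAt (z := 0) (by simp))
  have h3 : (kap α ∘ G') =ᶠ[𝓝 0] G := by
    filter_upwards [ball_mem_nhds (0:ℂ) one_pos] with z hz
    exact h z hz
  rw [← h3.deriv_eq, h2.deriv, norm_mul, hG'.zero, kap_deriv hα]

/-- Chain rule at the origin, case of a taken value. -/
lemma deriv_rel_hit {G G' : ℂ → ℂ} (hG : Uni G) (hG' : Uni G') {α γ : ℂ} (hα : ‖α‖ < 1)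
    (hγ : ‖γ‖ < 1) (h : ∀ z ∈ ball (0:ℂ) 1, kap α (G' z) = G (kap γ z)) :
    tt ‖α‖ * ‖deriv G' 0‖ = ‖deriv G 0‖ * tt ‖γ‖ := by
  have h1 := kap_hasDerivAt_zero hα
  rw [← hG'.zero] at h1
  have h2 := h1.comp 0 (hG'.hasDerivAt (z := 0) (by simp))
  have h3 : (kap α ∘ G') =ᶠ[𝓝 0] (G ∘ kap γ) := by
    filter_upwards [ball_mem_nhds (0:ℂ) one_pos] with z hz
    exact h z hz
  have h4 := hG.hasDerivAt (z := 0) (by simp)
  rw [← kap_zero γ] at h4
  have h5 := h4.comp 0 (kap_hasDerivAt_zero hγ)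
  have h6 := h3.deriv_eq
  rw [h2.deriv, h5.deriv, kap_zero, hG'.zero] at h6
  have h7 := congrArg norm h6
  rwa [norm_mul, norm_mul, kap_deriv hα, kap_deriv hγ] at h7

end Pool.Agent.Hhelper68
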