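import Mathlib
import Pool.Agent.Hhelper68.Lifts

/-!
Pick's growth inequality for bounded univalent functions, by Koebe osculation.
-/

open Metric Set Complex Filter Topology
open scoped ComplexConjugate

namespace Pool.Agent.Hhelper68

/-- The Koebe weight `x / (1 - x)^2`. -/
noncomputable def Phi (x : ℝ) : ℝ := x / (1 - x) ^ 2

lemma Phi_mono {x y : ℝ} (hx : 0 ≤ x) (hxy : x ≤ y) (hy : y < 1) : Phi x ≤ Phi y := by
  unfold Phi
  have h1 : 0 < 1 - y := by linarith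
  have h2 : 1 - y ≤ 1 - x := by linarith
  have h3 : 0 ≤ y := hx.trans hxy
  gcongr

lemma Phi_nonneg {x : ℝ} (hx : 0 ≤ x) : 0 ≤ Phi x := by
  unfold Phi; positivity

lemma Phi_kap {α z : ℂ} (hα : ‖α‖ < 1) (hz : ‖z‖ < 1) :
    Phi ‖kap α z‖ ≤ (1 + tt ‖α‖) ^ 2 / 4 * Phi ‖z‖ := by
  set t := tt ‖α‖ with ht
  set x := ‖z‖ with hx
  have ht0 : 0 ≤ t := by rw [ht]; unfold tt; positivity
  have ht1 : t < 1 := tt_lt_one hα
  have hx0 : 0 ≤ x := norm_nonneg z
  have h1 := kap_norm_le hα hz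
  rw [← ht, ← hx] at h1
  have hd : 0 < 1 + t * x := by positivity
  have hy : 1 - x * ((t + x) / (1 + t * x)) = (1 - x ^ 2) / (1 + t * x) := by
    field_simp; ring
  have hx2 : 0 < 1 - x ^ 2 := by nlinarith
  have hx3 : 0 < 1 - x := by linarith
  have hy1 : x * ((t + x) / (1 + t * x)) < 1 := by
    have : 0 < 1 - x * ((t + x) / (1 + t * x)) := by rw [hy]; positivity
    linarith
  refine (Phi_mono (norm_nonneg _) h1 hy1).trans ?_
  unfold Phi
  rw [hy]
  have e1 : x * ((t + x) / (1 + t * x)) / ((1 - x ^ 2) / (1 + t * x)) ^ 2 =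
      (t + x) * (1 + t * x) * (x / (1 - x ^ 2) ^ 2) := by
    field_simp
  have e2 : (1 + t) ^ 2 / 4 * (x / (1 - x) ^ 2) =
      (((1 + t) * (1 + x)) / 2) ^ 2 * (x / (1 - x ^ 2) ^ 2) := by
    have : (1 - x ^ 2) = (1 - x) * (1 + x) := by ring
    rw [this]
    field_simp
    ring
  rw [e1, e2]
  refine mul_le_mul_of_nonneg_right ?_ (by positivity)
  nlinarith [sq_nonneg ((t + x) - (1 + t * x))]

/-- Schwarz lemma for the inverse function. -/
lemma Uni.le_deriv {G : ℂ → ℂ} (hG : Uni G) {r : ℝ} (hr : 0 < r)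
    (h : closedBall (0:ℂ) r ⊆ G '' ball 0 1) : r ≤ ‖deriv G 0‖ := by
  set g := Function.invFunOn G (ball 0 1) with hg
  have hgG : ∀ z ∈ ball (0:ℂ) 1, g (G z) = z := fun z hz =>
    hG.inj.leftInvOn_invFunOn hz
  have hgd : ∀ z ∈ ball (0:ℂ) 1, HasDerivAt g (deriv G z)⁻¹ (G z) := by
    intro z hz
    have hz' : ‖z‖ < 1 := by simpa using hz
    have hA : AnalyticAt ℂ G z := hG.diff.analyticAt (isOpen_ball.mem_nhds hz)
    refine (hA.hasStrictDerivAt.to_local_left_inverse (hG.deriv_ne hz') ?_).hasDerivAt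
    filter_upwards [isOpen_ball.mem_nhds hz] with x hx
    exact hgG x hx
  have hmem : ∀ w ∈ ball (0:ℂ) 1, ∃ z ∈ ball (0:ℂ) 1, G z = (r:ℂ) * w := by
    intro w hw
    apply h
    rw [mem_closedBall_zero_iff, norm_mul, Complex.norm_real, Real.norm_of_nonneg hr.le]
    rw [mem_ball_zero_iff] at hw
    nlinarith
  set u : ℂ → ℂ := fun w => g ((r:ℂ) * w) with hu
  have hud : ∀ w ∈ ball (0:ℂ) 1, DifferentiableAt ℂ u w := by
    intro w hw
    obtain ⟨z, hz, hzw⟩ := hmem w hw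
    have h1 := hgd z hz
    rw [hzw] at h1
    have h2 : HasDerivAt (fun w : ℂ => (r:ℂ) * w) r w := by
      simpa using (hasDerivAt_id w).const_mul (r:ℂ)
    exact (h1.comp w h2).differentiableAt
  have hum : MapsTo u (ball 0 1) (closedBall (u 0) 1) := by
    intro w hw
    obtain ⟨z, hz, hzw⟩ := hmem w hw
    have h0 : u 0 = 0 := by
      rw [hu]
      simp only [mul_zero]
      have := hgG 0 (by simp)
      rwa [hG.zero] at this
    rw [h0, mem_closedBall_zero_iff, hu]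
    simp only
    rw [← hzw, hgG z hz]
    rw [mem_ball_zero_iff] at hz
    exact hz.le
  have h1 : ‖deriv u 0‖ ≤ 1 := Complex.norm_deriv_le_one_of_mapsTo_ball
    (fun w hw => (hud w hw).differentiableWithinAt) hum one_pos
  have h2 : HasDerivAt u ((deriv G 0)⁻¹ * r) 0 := by
    have h3 := hgd 0 (by simp)
    rw [hG.zero] at h3
    have h4 : HasDerivAt (fun w : ℂ => (r:ℂ) * w) r 0 := by
      simpa using (hasDerivAt_id (0:ℂ)).const_mul (r:ℂ)
    have h5 : HasDerivAt g (deriv G 0)⁻¹ ((fun w : ℂ => (r:ℂ) * w) 0) := by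
      simpa using h3
    exact h5.comp 0 h4
  rw [h2.deriv, norm_mul, norm_inv, Complex.norm_real, Real.norm_of_nonneg hr.le] at h1
  have h3 := hG.deriv_pos
  rw [inv_mul_le_iff₀ h3, mul_one] at h1
  exact h1

/-- Iterated osculation estimate. -/
lemma pick_iter {ρ : ℝ} (hρ0 : 0 < ρ) (hρ1 : ρ < 1) (n : ℕ) :
    ∀ G : ℂ → ℂ, Uni G → (tt ρ) ^ n < ‖deriv G 0‖ → ∀ c : ℂ, ‖c‖ < 1 →
      Phi ‖G c‖ ≤ ‖deriv G 0‖ / ρ ^ 2 * ((1 + tt ρ) ^ 2 / (4 * tt ρ)) ^ n * Phi ‖c‖ := by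
  have ht0 := tt_pos hρ0
  have ht1 := tt_lt_one hρ1
  set t := tt ρ with ht
  have hK : 1 ≤ (1 + t) ^ 2 / (4 * t) := by
    rw [le_div_iff₀ (by positivity)]
    nlinarith [sq_nonneg (1 - t)]
  induction n with
  | zero =>
    intro G hG hn
    rw [pow_zero] at hn
    exact absurd hG.deriv_le (not_le.mpr hn)
  | succ n ih =>
    intro G hG hn c hc
    by_cases hcov : closedBall (0:ℂ) (ρ ^ 2) ⊆ G '' ball 0 1
    · have h1 := hG.le_deriv (by positivity) hcov
      have h2 : Phi ‖G c‖ ≤ Phi ‖c‖ := Phi_mono (norm_nonneg _) (hG.norm_le hc) hc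
      have h3 : 1 ≤ ‖deriv G 0‖ / ρ ^ 2 * ((1 + t) ^ 2 / (4 * t)) ^ (n + 1) := by
        have h4 : 1 ≤ ‖deriv G 0‖ / ρ ^ 2 := by
          rw [le_div_iff₀ (by positivity), one_mul]; exact h1
        exact one_le_mul_of_one_le_of_one_le h4 (one_le_pow₀ hK)
      calc Phi ‖G c‖ ≤ 1 * Phi ‖c‖ := by rw [one_mul]; exact h2
        _ ≤ _ := mul_le_mul_of_nonneg_right h3 (Phi_nonneg (norm_nonneg _))
    · obtain ⟨a, ha, hmiss⟩ := hG.exists_missing (by positivity) hcov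
      obtain ⟨α, hαa⟩ := IsAlgClosed.exists_pow_nat_eq a two_pos
      have hαρ : ‖α‖ = ρ := by
        have : ‖α‖ ^ 2 = ρ ^ 2 := by rw [← norm_pow, hαa, ha]
        exact (pow_left_inj₀ (norm_nonneg _) hρ0.le two_ne_zero).mp this
      have hα1 : ‖α‖ < 1 := by rw [hαρ]; exact hρ1
      rw [← hαa] at hmiss
      obtain ⟨G', hG', hkap⟩ := hG.lift_miss hα1 hmiss
      have hrel := deriv_rel_miss hG' hα1 hkap
      rw [hαρ, ← ht] at hrel
      have h1 : t ^ n < ‖deriv G' 0‖ := by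
        have : t * t ^ n < t * ‖deriv G' 0‖ := by rw [hrel, ← pow_succ']; exact hn
        exact lt_of_mul_lt_mul_left this ht0.le
      have h2 := ih G' hG' h1 c hc
      have h3 := Phi_kap hα1 (hG'.norm_lt hc)
      rw [hkap c (by simpa using hc), hαρ, ← ht] at h3
      calc Phi ‖G c‖ ≤ (1 + t) ^ 2 / 4 * Phi ‖G' c‖ := h3
        _ ≤ (1 + t) ^ 2 / 4 *
            (‖deriv G' 0‖ / ρ ^ 2 * ((1 + t) ^ 2 / (4 * t)) ^ n * Phi ‖c‖) := by gcongr
        _ = ‖deriv G 0‖ / ρ ^ 2 * ((1 + t) ^ 2 / (4 * t)) ^ (n + 1) * Phi ‖c‖ := by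
            rw [← hrel, pow_succ ((1 + t) ^ 2 / (4 * t)) n]
            generalize ((1 + t) ^ 2 / (4 * t)) ^ n = Kn
            field_simp

/-- Number of steps. -/
lemma exists_steps {t D : ℝ} (ht0 : 0 < t) (ht1 : t < 1) (hD0 : 0 < D) (hD1 : D ≤ 1) :
    ∃ n : ℕ, t ^ n < D ∧ n * (1 - t) ≤ 1 / D := by
  have hex : ∃ n : ℕ, t ^ n < D := exists_pow_lt_of_lt_one hD0 ht1
  classical
  refine ⟨Nat.find hex, Nat.find_spec hex, ?_⟩
  have hpos : Nat.find hex ≠ 0 := by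
    intro h
    have := Nat.find_spec hex
    rw [h, pow_zero] at this
    linarith
  obtain ⟨m, hm⟩ := Nat.exists_eq_succ_of_ne_zero hpos
  have hmin : ¬ t ^ m < D := Nat.find_min hex (by rw [hm]; exact Nat.lt_succ_self m)
  push Not at hmin
  rw [hm]
  have h1 : 1 + (m : ℝ) * (1 / t - 1) ≤ (1 / t) ^ m := by
    have := one_add_mul_le_pow (a := 1 / t - 1) (by
      have : 0 < 1 / t := by positivity
      linarith) m
    rwa [add_sub_cancel] at this
  have h2 : (1 / t) ^ m ≤ 1 / D := by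
    rw [one_div_pow]
    exact one_div_le_one_div_of_le hD0 hmin
  have h3 : 1 - t ≤ 1 / t - 1 := by
    have : 0 ≤ (1 - t) ^ 2 / t := by positivity
    have e : (1 - t) ^ 2 / t = 1 / t - 1 - (1 - t) := by
      rw [div_eq_iff ht0.ne', sub_mul, sub_mul, one_div_mul_cancel ht0.ne']; ring
    linarith
  have h4 : (m : ℝ) * (1 - t) ≤ m * (1 / t - 1) := by gcongr
  push_cast
  linarith

lemma continuousAt_tt : ContinuousAt tt 1 := by
  unfold tt
  refine ContinuousAt.div (by fun_prop) (by fun_prop) (by norm_num)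

lemma tt_one : tt 1 = 1 := by norm_num [tt]

/-- Pick's growth theorem for bounded univalent functions. -/
theorem pick {G : ℂ → ℂ} (hG : Uni G) {c : ℂ} (hc : ‖c‖ < 1) :
    Phi ‖G c‖ ≤ ‖deriv G 0‖ * Phi ‖c‖ := by
  set D := ‖deriv G 0‖ with hD
  have hD0 : 0 < D := hG.deriv_pos
  have hD1 : D ≤ 1 := hG.deriv_le
  have key : ∀ ρ : ℝ, 0 < ρ → ρ < 1 →
      Phi ‖G c‖ ≤ D / ρ ^ 2 * Real.exp ((1 - tt ρ) / (4 * tt ρ * D)) * Phi ‖c‖ := by
    intro ρ hρ0 hρ1
    have ht0 := tt_pos hρ0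
    have ht1 := tt_lt_one hρ1
    obtain ⟨n, hn1, hn2⟩ := exists_steps ht0 ht1 hD0 hD1
    refine (pick_iter hρ0 hρ1 n G hG hn1 c hc).trans ?_
    have h1 : ((1 + tt ρ) ^ 2 / (4 * tt ρ)) ^ n ≤ Real.exp ((1 - tt ρ) / (4 * tt ρ * D)) := by
      set t := tt ρ with ht
      have e : (1 + t) ^ 2 / (4 * t) = (1 - t) ^ 2 / (4 * t) + 1 := by field_simp; ring
      have h2 : (1 + t) ^ 2 / (4 * t) ≤ Real.exp ((1 - t) ^ 2 / (4 * t)) := by
        rw [e]; exact Real.add_one_le_exp _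
      calc ((1 + t) ^ 2 / (4 * t)) ^ n ≤ (Real.exp ((1 - t) ^ 2 / (4 * t))) ^ n := by gcongr
        _ = Real.exp (n * ((1 - t) ^ 2 / (4 * t))) := by rw [← Real.exp_nat_mul]
        _ ≤ _ := by
          apply Real.exp_le_exp.mpr
          have h3 : (n : ℝ) * ((1 - t) ^ 2 / (4 * t)) = (n * (1 - t)) * ((1 - t) / (4 * t)) := by
            ring
          have h4 : (1 - t) / (4 * t * D) = (1 / D) * ((1 - t) / (4 * t)) := by field_simp
          rw [h3, h4]
          have h5 : 0 ≤ (1 - t) / (4 * t) := by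
            have : 0 ≤ 1 - t := by linarith
            positivity
          exact mul_le_mul_of_nonneg_right hn2 h5
    have h6 := Phi_nonneg (norm_nonneg c)
    gcongr
  have hlim : Tendsto (fun ρ : ℝ => D / ρ ^ 2 * Real.exp ((1 - tt ρ) / (4 * tt ρ * D)) * Phi ‖c‖)
      (𝓝[<] 1) (𝓝 (D * Phi ‖c‖)) := by
    have h1 : ContinuousAt
        (fun ρ : ℝ => D / ρ ^ 2 * Real.exp ((1 - tt ρ) / (4 * tt ρ * D)) * Phi ‖c‖) 1 := by
      have h2 := continuousAt_tt
      refine ContinuousAt.mul (ContinuousAt.mul ?_ ?_) continuousAt_const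
      · exact ContinuousAt.div continuousAt_const (by fun_prop) (by norm_num)
      · refine Real.continuous_exp.continuousAt.comp ?_
        refine ContinuousAt.div (continuousAt_const.sub h2)
          ((continuousAt_const.mul h2).mul continuousAt_const) ?_
        rw [tt_one]
        positivity
    have h3 := h1.tendsto.mono_left (nhdsWithin_le_nhds (s := Iio 1))
    simpa [tt_one] using h3
  refine ge_of_tendsto hlim ?_
  filter_upwards [Ioo_mem_nhdsLT (show (0:ℝ) < 1 by norm_num)] with ρ hρ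
  exact key ρ hρ.1 hρ.2

end Pool.Agent.Hhelper68
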