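import Mathlib
import Pool.Agent.Hhelper68.Pick

/-!
The two-map theorem: given two univalent self-maps of the disc fixing the origin there is a
holomorphic map into the intersection of their images with controlled derivative.
-/

open Metric Set Complex Filter Topology
open scoped ComplexConjugate

namespace Pool.Agent.Hhelper68

/-- The key numerical inequality, from Pick's theorem. -/
lemma key_ineq {ρ g D : ℝ} (hρ0 : 0 < ρ) (hρ1 : ρ < 1) (hg0 : 0 < g) (hg1 : g < 1) (hD : 0 < D)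
    (hpick : Phi (ρ ^ 2) ≤ D * Phi (g ^ 2)) :
    (1 / D) * (1 / tt g - 1) ≤ (1 + ρ) ^ 2 / (4 * ρ) * (1 / tt ρ - 1) := by
  have h1 : 0 < 1 - ρ ^ 2 := by nlinarith
  have h2 : 0 < 1 - g ^ 2 := by nlinarith
  have hP : 0 < Phi (ρ ^ 2) := by unfold Phi; positivity
  have e1 : (1 + ρ) ^ 2 / (4 * ρ) * (1 / tt ρ - 1) = 1 / (8 * Phi (ρ ^ 2)) := by
    unfold tt Phi
    have h3 : 1 - ρ ^ 2 = (1 - ρ) * (1 + ρ) := by ring
    have h4 : 1 - ρ ≠ 0 := by intro h; rw [h3, h, zero_mul] at h1; exact lt_irrefl _ h1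
    have h5 : 1 + ρ ≠ 0 := by positivity
    rw [h3]
    field_simp
    ring
  have e2 : 1 / tt g - 1 = (1 - g) ^ 2 / (2 * g) := by
    unfold tt
    field_simp
    ring
  have h6 : 1 / D ≤ Phi (g ^ 2) / Phi (ρ ^ 2) := by
    rw [div_le_div_iff₀ hD hP, one_mul, mul_comm]
    exact hpick
  have e3 : Phi (g ^ 2) / Phi (ρ ^ 2) * ((1 - g) ^ 2 / (2 * g)) =
      (g / (2 * (1 + g) ^ 2)) * (1 / Phi (ρ ^ 2)) := by
    have h3 : 1 - g ^ 2 = (1 - g) * (1 + g) := by ring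
    have h4 : 1 - g ≠ 0 := by intro h; rw [h3, h, zero_mul] at h2; exact lt_irrefl _ h2
    have h5 : 1 + g ≠ 0 := by positivity
    have e4 : Phi (g ^ 2) = g ^ 2 / ((1 - g) * (1 + g)) ^ 2 := by unfold Phi; rw [h3]
    rw [e4]
    generalize Phi (ρ ^ 2) = P at *
    field_simp
  have h7 : g / (2 * (1 + g) ^ 2) ≤ 1 / 8 := by
    rw [div_le_div_iff₀ (by positivity) (by norm_num)]
    nlinarith [sq_nonneg (1 - g)]
  rw [e1, e2]
  calc 1 / D * ((1 - g) ^ 2 / (2 * g)) ≤ Phi (g ^ 2) / Phi (ρ ^ 2) * ((1 - g) ^ 2 / (2 * g)) := by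
        gcongr
    _ = (g / (2 * (1 + g) ^ 2)) * (1 / Phi (ρ ^ 2)) := e3
    _ ≤ 1 / 8 * (1 / Phi (ρ ^ 2)) := by gcongr
    _ = 1 / (8 * Phi (ρ ^ 2)) := by field_simp

lemma two_iter {ρ : ℝ} (hρ0 : 0 < ρ) (hρ1 : ρ < 1) (n : ℕ) :
    ∀ G1 G2 : ℂ → ℂ, Uni G1 → Uni G2 → (tt ρ) ^ n < ‖deriv G2 0‖ →
      ∃ h : ℂ → ℂ, DifferentiableOn ℂ h (ball 0 1) ∧ h 0 = 0 ∧
        (∀ z ∈ ball (0:ℂ) 1, h z ∈ G1 '' ball 0 1 ∧ h z ∈ G2 '' ball 0 1) ∧
        0 < ‖deriv h 0‖ ∧
        1 / ‖deriv h 0‖ ≤ 1 / ρ ^ 2 * (1 / ‖deriv G1 0‖ +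
          (1 + ρ) ^ 2 / (4 * ρ) * (1 / ‖deriv G2 0‖ - 1)) := by
  have ht0 := tt_pos hρ0
  have ht1 := tt_lt_one hρ1
  set t := tt ρ with ht
  set E := (1 + ρ) ^ 2 / (4 * ρ) with hE
  have hE0 : 0 < E := by rw [hE]; positivity
  induction n with
  | zero =>
    intro G1 G2 hG1 hG2 hn
    rw [pow_zero] at hn
    exact absurd hG2.deriv_le (not_le.mpr hn)
  | succ n ih =>
    intro G1 G2 hG1 hG2 hn
    by_cases hcov : closedBall (0:ℂ) (ρ ^ 2) ⊆ G2 '' ball 0 1
    · have hr1 : ρ ^ 2 < 1 := by nlinarith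
      have hr0 : 0 < ρ ^ 2 := by positivity
      have hmem : ∀ z ∈ ball (0:ℂ) 1, ((ρ ^ 2 : ℝ) : ℂ) * z ∈ ball (0:ℂ) 1 ∧
          ‖((ρ ^ 2 : ℝ) : ℂ) * z‖ ≤ ρ ^ 2 := by
        intro z hz
        rw [mem_ball_zero_iff] at hz ⊢
        rw [norm_mul, Complex.norm_real, Real.norm_of_nonneg hr0.le]
        constructor <;> nlinarith [norm_nonneg z]
      have hlin' : ∀ c z : ℂ, HasDerivAt (fun z : ℂ => c * z) c z := by
        intro c z
        simpa using (hasDerivAt_id z).const_mul c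
      have hlin : ∀ z : ℂ, HasDerivAt (fun z : ℂ => ((ρ ^ 2 : ℝ) : ℂ) * z) ((ρ ^ 2 : ℝ) : ℂ) z :=
        fun z => hlin' _ z
      have hder : HasDerivAt (fun z => G1 (((ρ ^ 2 : ℝ) : ℂ) * z))
          (deriv G1 0 * ((ρ ^ 2 : ℝ) : ℂ)) 0 := by
        have h1 : HasDerivAt G1 (deriv G1 0) ((fun z : ℂ => ((ρ ^ 2 : ℝ) : ℂ) * z) 0) := by
          simpa using hG1.hasDerivAt (z := 0) (by simp)
        exact h1.comp 0 (hlin 0)
      refine ⟨fun z => G1 (((ρ ^ 2 : ℝ) : ℂ) * z), ?_, ?_, ?_, ?_, ?_⟩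
      · refine hG1.diff.comp (fun z _ => (hlin z).differentiableAt.differentiableWithinAt) ?_
        intro z hz
        exact (hmem z hz).1
      · simp only [mul_zero]
        exact hG1.zero
      · intro z hz
        have h1 := hmem z hz
        refine ⟨⟨_, h1.1, rfl⟩, hcov ?_⟩
        rw [mem_closedBall_zero_iff]
        exact (hG1.norm_le (by simpa using h1.1)).trans h1.2
      · rw [hder.deriv, norm_mul, Complex.norm_real, Real.norm_of_nonneg hr0.le]
        have := hG1.deriv_pos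
        positivity
      · rw [hder.deriv, norm_mul, Complex.norm_real, Real.norm_of_nonneg hr0.le]
        have h1 := hG1.deriv_pos
        have h2 := hG2.deriv_pos
        have h3 : 0 ≤ 1 / ‖deriv G2 0‖ - 1 := by
          rw [sub_nonneg, le_div_iff₀ h2, one_mul]; exact hG2.deriv_le
        calc 1 / (‖deriv G1 0‖ * ρ ^ 2) = 1 / ρ ^ 2 * (1 / ‖deriv G1 0‖ + 0) := by
              field_simp; ring
          _ ≤ _ := by gcongr; positivity
    · obtain ⟨a, ha, hmiss⟩ := hG2.exists_missing (by positivity) hcov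
      obtain ⟨α, hαa⟩ := IsAlgClosed.exists_pow_nat_eq a two_pos
      have hαρ : ‖α‖ = ρ := by
        have : ‖α‖ ^ 2 = ρ ^ 2 := by rw [← norm_pow, hαa, ha]
        exact (pow_left_inj₀ (norm_nonneg _) hρ0.le two_ne_zero).mp this
      have hα1 : ‖α‖ < 1 := by rw [hαρ]; exact hρ1
      rw [← hαa] at hmiss
      obtain ⟨G2', hG2', hkap2⟩ := hG2.lift_miss hα1 hmiss
      have hrel2 := deriv_rel_miss hG2' hα1 hkap2
      rw [hαρ, ← ht] at hrel2
      have hn' : t ^ n < ‖deriv G2' 0‖ := by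
        have : t * t ^ n < t * ‖deriv G2' 0‖ := by rw [hrel2, ← pow_succ']; exact hn
        exact lt_of_mul_lt_mul_left this ht0.le
      -- the lift of the first map
      obtain ⟨G1', hG1', hin, hest⟩ : ∃ G1' : ℂ → ℂ, Uni G1' ∧
          (∀ z ∈ ball (0:ℂ) 1, kap α (G1' z) ∈ G1 '' ball 0 1) ∧
          1 / (t * ‖deriv G1' 0‖) ≤ 1 / ‖deriv G1 0‖ + E * (1 / t - 1) := by
        by_cases hm1 : α ^ 2 ∈ G1 '' ball 0 1
        · obtain ⟨c, hc, hca⟩ := hm1
          obtain ⟨γ, hγc⟩ := IsAlgClosed.exists_pow_nat_eq c two_pos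
          have hc1 : ‖c‖ < 1 := by simpa using hc
          have hγn : ‖γ‖ ^ 2 = ‖c‖ := by rw [← norm_pow, hγc]
          have hγ1 : ‖γ‖ < 1 := by nlinarith [norm_nonneg γ]
          have hα0 : α ≠ 0 := by
            intro h; rw [h, norm_zero] at hαρ; exact hρ0.ne hαρ
          have hγ0 : 0 < ‖γ‖ := by
            rw [norm_pos_iff]
            rintro rfl
            rw [← hγc] at hca
            simp only [ne_eq, OfNat.ofNat_ne_zero, not_false_eq_true, zero_pow] at hca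
            rw [hG1.zero] at hca
            exact hα0 (pow_eq_zero_iff two_ne_zero |>.mp hca.symm)
          rw [← hγc] at hca
          obtain ⟨G1', hG1', hkap1⟩ := hG1.lift_hit hα1 hγ1 hca
          have hrel1 := deriv_rel_hit hG1 hG1' hα1 hγ1 hkap1
          rw [hαρ, ← ht] at hrel1
          refine ⟨G1', hG1', fun z hz => ?_, ?_⟩
          · rw [hkap1 z hz]
            exact ⟨_, kap_mapsTo hγ1 hz, rfl⟩
          · rw [hrel1]
            have hp := pick hG1 hc1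
            rw [← hγc, hca, norm_pow, norm_pow, hαρ] at hp
            have hk := key_ineq hρ0 hρ1 hγ0 hγ1 hG1.deriv_pos hp
            rw [← ht, ← hE] at hk
            have hs0 := tt_pos hγ0
            have hD := hG1.deriv_pos
            have e : 1 / (‖deriv G1 0‖ * tt ‖γ‖) =
                1 / ‖deriv G1 0‖ + 1 / ‖deriv G1 0‖ * (1 / tt ‖γ‖ - 1) := by
              field_simp; ring
            rw [e]
            linarith
        · obtain ⟨G1', hG1', hkap1⟩ := hG1.lift_miss hα1 hm1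
          have hrel1 := deriv_rel_miss hG1' hα1 hkap1
          rw [hαρ, ← ht] at hrel1
          refine ⟨G1', hG1', fun z hz => ?_, ?_⟩
          · rw [hkap1 z hz]
            exact ⟨z, hz, rfl⟩
          · rw [hrel1]
            have h1 : 0 ≤ 1 / t - 1 := by
              rw [sub_nonneg, le_div_iff₀ ht0, one_mul]; exact ht1.le
            have h2 : 0 ≤ E * (1 / t - 1) := by positivity
            linarith
      obtain ⟨h', hd', h0', hm', hpos', hle'⟩ := ih G1' G2' hG1' hG2' hn'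
      have hmaps' : MapsTo h' (ball 0 1) (ball 0 1) := by
        intro z hz
        obtain ⟨⟨u, hu, hu'⟩, _⟩ := hm' z hz
        rw [← hu']
        exact hG1'.maps hu
      have hder : HasDerivAt (fun z => kap α (h' z)) (deriv (kap α) 0 * deriv h' 0) 0 := by
        have h1 : HasDerivAt (kap α) (deriv (kap α) 0) (h' 0) := by
          rw [h0']; exact kap_hasDerivAt_zero hα1
        have h2 : HasDerivAt h' (deriv h' 0) 0 :=
          ((hd' 0 (by simp)).differentiableAt (isOpen_ball.mem_nhds (by simp))).hasDerivAt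
        exact h1.comp 0 h2
      have hnorm : ‖deriv (fun z => kap α (h' z)) 0‖ = t * ‖deriv h' 0‖ := by
        rw [hder.deriv, norm_mul, kap_deriv hα1, hαρ]
      refine ⟨fun z => kap α (h' z), (kap_differentiableOn hα1).comp hd' hmaps', ?_, ?_, ?_, ?_⟩
      · simp only
        rw [h0', kap_zero]
      · intro z hz
        obtain ⟨⟨u, hu, hu'⟩, ⟨v, hv, hv'⟩⟩ := hm' z hz
        constructor
        · have := hin u hu
          rwa [hu'] at this
        · refine ⟨v, hv, ?_⟩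
          rw [← hkap2 v hv, hv']
      · rw [hnorm]; positivity
      · rw [hnorm]
        have hD1 := hG1'.deriv_pos
        have hD2 := hG2'.deriv_pos
        calc 1 / (t * ‖deriv h' 0‖) = 1 / t * (1 / ‖deriv h' 0‖) := by field_simp
          _ ≤ 1 / t * (1 / ρ ^ 2 * (1 / ‖deriv G1' 0‖ + E * (1 / ‖deriv G2' 0‖ - 1))) := by
              gcongr
          _ = 1 / ρ ^ 2 * (1 / (t * ‖deriv G1' 0‖) + E * (1 / (t * ‖deriv G2' 0‖) - 1 / t)) := by
              field_simp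
          _ = 1 / ρ ^ 2 * (1 / (t * ‖deriv G1' 0‖) + E * (1 / ‖deriv G2 0‖ - 1 / t)) := by
              rw [hrel2]
          _ ≤ 1 / ρ ^ 2 * ((1 / ‖deriv G1 0‖ + E * (1 / t - 1)) +
                E * (1 / ‖deriv G2 0‖ - 1 / t)) := by gcongr
          _ = 1 / ρ ^ 2 * (1 / ‖deriv G1 0‖ + E * (1 / ‖deriv G2 0‖ - 1)) := by ring

/-- The two-map theorem. -/
theorem two_maps {ρ : ℝ} (hρ0 : 0 < ρ) (hρ1 : ρ < 1) {G1 G2 : ℂ → ℂ} (hG1 : Uni G1)
    (hG2 : Uni G2) :
    ∃ h : ℂ → ℂ, DifferentiableOn ℂ h (ball 0 1) ∧ h 0 = 0 ∧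
      (∀ z ∈ ball (0:ℂ) 1, h z ∈ G1 '' ball 0 1 ∧ h z ∈ G2 '' ball 0 1) ∧
      0 < ‖deriv h 0‖ ∧
      1 / ‖deriv h 0‖ ≤ 1 / ρ ^ 2 * (1 / ‖deriv G1 0‖ +
        (1 + ρ) ^ 2 / (4 * ρ) * (1 / ‖deriv G2 0‖ - 1)) := by
  obtain ⟨n, hn⟩ := exists_pow_lt_of_lt_one hG2.deriv_pos (tt_lt_one hρ1)
  exact two_iter hρ0 hρ1 n G1 G2 hG1 hG2 hn

end Pool.Agent.Hhelper68
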