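import Mathlib
import Pool.Agent.Hhelper68.Two

/-!
Holomorphic coverings of plane domains by the disc and the hyperbolic density.
-/

open Metric Set Complex Filter Topology
open scoped ComplexConjugate

namespace Pool.Agent.Hhelper68

/-- `f` restricts to a holomorphic covering map of the open unit disc onto `D`. Since the disc is
simply connected this is a universal covering. -/
def IsDiscCover (f : ℂ → ℂ) (D : Set ℂ) : Prop :=
  DifferentiableOn ℂ f (ball 0 1) ∧ f '' ball 0 1 = D ∧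
    IsCoveringMapOn (fun z : ball (0 : ℂ) 1 => f z) D

/-- `r` is the value at `z` of the hyperbolic density of `D` (normalised to `1 / (1 - |w|^2)` on
the unit disc): there are a holomorphic universal covering map `f` of the unit disc onto `D` and a
point `w` of the disc with `f w = z` and `r |f'(w)| = 1 / (1 - |w|^2)`. -/
def IsHypDensity (D : Set ℂ) (z : ℂ) (r : ℝ) : Prop :=
  ∃ f : ℂ → ℂ, IsDiscCover f D ∧
    ∃ w ∈ ball (0 : ℂ) 1, f w = z ∧ r * ‖deriv f w‖ = 1 / (1 - ‖w‖ ^ 2)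

instance discSimply : SimplyConnectedSpace (ball (0:ℂ) 1) := by
  have := contractibleSpace_ball (x := (0:ℂ)) one_pos
  infer_instance

instance discLoc : LocallyPathConnectedSpace (ball (0:ℂ) 1) :=
  isOpen_ball.locallyPathConnectedSpace

lemma IsDiscCover.mapsTo {p : ℂ → ℂ} {D : Set ℂ} (hp : IsDiscCover p D) :
    MapsTo p (ball 0 1) D := by
  intro z hz
  rw [← hp.2.1]
  exact mem_image_of_mem p hz

/-- The derivative of a covering does not vanish. -/
lemma IsDiscCover.deriv_ne {p : ℂ → ℂ} {D : Set ℂ} (hp : IsDiscCover p D) {y : ℂ}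
    (hy : y ∈ ball (0:ℂ) 1) : deriv p y ≠ 0 := by
  have h1 := hp.2.2.isLocalHomeomorphOn
  obtain ⟨e, hye, he⟩ := h1 ⟨y, hy⟩ (hp.mapsTo hy)
  have hinj : InjOn (fun z : ball (0 : ℂ) 1 => p z) e.source := by
    rw [he]; exact e.injOn
  have hopen : IsOpen (Subtype.val '' e.source : Set ℂ) :=
    isOpen_ball.isOpenMap_subtype_val _ e.open_source
  refine deriv_ne_zero_of_injOn hopen (hp.1.mono ?_) ?_ (z := y) ⟨⟨y, hy⟩, hye, rfl⟩
  · rintro _ ⟨x, _, rfl⟩
    exact x.2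
  · rintro _ ⟨x, hx, rfl⟩ _ ⟨x', hx', rfl⟩ h
    exact congrArg Subtype.val (hinj hx hx' h)

/-- Holomorphic lifting through a covering. -/
lemma IsDiscCover.lift {p : ℂ → ℂ} {D : Set ℂ} (hp : IsDiscCover p D) {f : ℂ → ℂ}
    (hf : DifferentiableOn ℂ f (ball 0 1)) (hfm : MapsTo f (ball 0 1) D) {x0 y0 : ℂ}
    (hx0 : x0 ∈ ball (0:ℂ) 1) (hy0 : y0 ∈ ball (0:ℂ) 1) (h0 : p y0 = f x0) :
    ∃ g : ℂ → ℂ, DifferentiableOn ℂ g (ball 0 1) ∧ MapsTo g (ball 0 1) (ball 0 1) ∧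
      g x0 = y0 ∧ ∀ z ∈ ball (0:ℂ) 1, p (g z) = f z := by
  classical
  have hfc : Continuous (fun z : ball (0:ℂ) 1 => f z) :=
    continuousOn_iff_continuous_domRestrict.mp hf.continuousOn
  obtain ⟨F, ⟨hF0, hF⟩, -⟩ := hp.2.2.existsUnique_continuousMap_lifts
    (⟨fun z : ball (0:ℂ) 1 => f z, hfc⟩ : C(ball (0:ℂ) 1, ℂ)) (a₀ := ⟨x0, hx0⟩) (e₀ := ⟨y0, hy0⟩)
    h0 (fun a => hfm a.2)
  obtain ⟨g, hg⟩ : ∃ g : ℂ → ℂ, ∀ z : ball (0:ℂ) 1, g z = F z :=
    ⟨fun z => if hz : z ∈ ball (0:ℂ) 1 then (F ⟨z, hz⟩ : ℂ) else 0, by simp⟩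
  have hgm : MapsTo g (ball 0 1) (ball 0 1) := by
    intro z hz
    rw [hg ⟨z, hz⟩]
    exact (F ⟨z, hz⟩).2
  have hpg : ∀ z ∈ ball (0:ℂ) 1, p (g z) = f z := by
    intro z hz
    rw [hg ⟨z, hz⟩]
    exact congrFun hF ⟨z, hz⟩
  have hgc : ContinuousOn g (ball 0 1) := by
    rw [continuousOn_iff_continuous_domRestrict]
    have : (ball (0:ℂ) 1).domRestrict g = fun z => (F z : ℂ) := by
      ext z; exact hg z
    rw [this]
    exact continuous_subtype_val.comp F.continuous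
  refine ⟨g, ?_, hgm, ?_, hpg⟩
  · intro z hz
    have hy := hgm hz
    have hd := hp.deriv_ne hy
    have hA : AnalyticAt ℂ p (g z) := hp.1.analyticAt (isOpen_ball.mem_nhds hy)
    have hs := hA.hasStrictDerivAt
    have h1 := hs.eventually_left_inverse hd
    have h2 := (hs.to_localInverse hd).hasDerivAt
    have hgcz : ContinuousAt g z := hgc.continuousAt (isOpen_ball.mem_nhds hz)
    have h3 : g =ᶠ[𝓝 z] fun x => hs.localInverse p (deriv p (g z)) (g z) hd (f x) := by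
      filter_upwards [hgcz.eventually h1, isOpen_ball.mem_nhds hz] with x hx hx2
      rw [← hpg x hx2]
      exact hx.symm
    have hfd : DifferentiableAt ℂ f z := (hf z hz).differentiableAt (isOpen_ball.mem_nhds hz)
    have h4 : DifferentiableAt ℂ
        (fun x => hs.localInverse p (deriv p (g z)) (g z) hd (f x)) z := by
      rw [hpg z hz] at h2
      exact h2.differentiableAt.comp z hfd
    exact (h3.differentiableAt_iff.mpr h4).differentiableWithinAt
  · rw [hg ⟨x0, hx0⟩, hF0]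

/-- A covering of a simply connected domain is injective. -/
lemma IsDiscCover.injOn {p : ℂ → ℂ} {D : Set ℂ} (hp : IsDiscCover p D) (hDo : IsOpen D)
    (hD : IsSimplyConnected D) : InjOn p (ball 0 1) := by
  have := hD.simplyConnectedSpace
  have := hDo.locallyPathConnectedSpace
  have h00 : (0:ℂ) ∈ ball (0:ℂ) 1 := by simp
  have hpc : Continuous (fun z : ball (0:ℂ) 1 => p z) :=
    continuousOn_iff_continuous_domRestrict.mp hp.1.continuousOn
  obtain ⟨F, ⟨hF0, hF⟩, -⟩ := hp.2.2.existsUnique_continuousMap_lifts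
    (⟨fun z : D => (z : ℂ), continuous_subtype_val⟩ : C(D, ℂ)) (a₀ := ⟨p 0, hp.mapsTo h00⟩)
    (e₀ := ⟨0, h00⟩) rfl (fun a => a.2)
  have hu := hp.2.2.existsUnique_continuousMap_lifts
    (⟨fun z : ball (0:ℂ) 1 => p z, hpc⟩ : C(ball (0:ℂ) 1, ℂ)) (a₀ := ⟨0, h00⟩) (e₀ := ⟨0, h00⟩)
    rfl (fun a => hp.mapsTo a.2)
  let P : C(ball (0:ℂ) 1, D) := ⟨fun z => ⟨p z, hp.mapsTo z.2⟩, by
    exact hpc.subtype_mk _⟩
  have h1 : F.comp P = ContinuousMap.id _ := by
    refine hu.unique ⟨?_, ?_⟩ ⟨rfl, ?_⟩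
    · exact hF0
    · ext z
      exact congrFun hF (P z)
    · rfl
  intro z hz w hw h
  have h2 : F (P ⟨z, hz⟩) = ⟨z, hz⟩ := congrArg (fun φ => φ ⟨z, hz⟩) h1
  have h3 : F (P ⟨w, hw⟩) = ⟨w, hw⟩ := congrArg (fun φ => φ ⟨w, hw⟩) h1
  have h4 : P ⟨z, hz⟩ = P ⟨w, hw⟩ := Subtype.ext h
  rw [h4, h3] at h2
  exact (congrArg Subtype.val h2).symm

lemma mob_deriv_zero_norm {w : ℂ} (hw : ‖w‖ < 1) : ‖deriv (mob w) 0‖ = 1 - ‖w‖ ^ 2 := by
  rw [(mob_hasDerivAt hw (z := 0) (by simp)).deriv]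
  have e : ((‖w‖ : ℂ) ^ 2 - 1) / (1 - conj w * 0) ^ 2 = ((‖w‖ ^ 2 - 1 : ℝ) : ℂ) := by
    push_cast; simp
  rw [e, Complex.norm_real, Real.norm_eq_abs, abs_sub_comm, abs_of_pos]
  nlinarith [norm_nonneg w]

/-- The normalised covering attached to a density. -/
lemma IsHypDensity.exists_normalised {D : Set ℂ} {z : ℂ} {r : ℝ} (h : IsHypDensity D z r) :
    ∃ P : ℂ → ℂ, DifferentiableOn ℂ P (ball 0 1) ∧ MapsTo P (ball 0 1) D ∧ P 0 = z ∧
      r * ‖deriv P 0‖ = 1 ∧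
      (∀ f : ℂ → ℂ, DifferentiableOn ℂ f (ball 0 1) → MapsTo f (ball 0 1) D → f 0 = z →
        ∃ g : ℂ → ℂ, DifferentiableOn ℂ g (ball 0 1) ∧ MapsTo g (ball 0 1) (ball 0 1) ∧
          g 0 = 0 ∧ ∀ x ∈ ball (0:ℂ) 1, P (g x) = f x) ∧
      (IsOpen D → IsSimplyConnected D → InjOn P (ball 0 1)) := by
  obtain ⟨p, hp, w, hw, hpw, hr⟩ := h
  have hw1 : ‖w‖ < 1 := by simpa using hw
  have hwd : (0:ℝ) < 1 - ‖w‖ ^ 2 := by nlinarith [norm_nonneg w]
  refine ⟨fun x => p (mob w x), ?_, ?_, ?_, ?_, ?_, ?_⟩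
  · exact hp.1.comp (mob_differentiableOn hw1) (mob_mapsTo hw1)
  · exact hp.mapsTo.comp (mob_mapsTo hw1)
  · simp only
    rw [mob_zero, hpw]
  · have h1 : HasDerivAt p (deriv p w) (mob w 0) := by
      rw [mob_zero]
      exact ((hp.1 w hw).differentiableAt (isOpen_ball.mem_nhds hw)).hasDerivAt
    have h2 := (mob_hasDerivAt hw1 (z := 0) (by simp)).differentiableAt.hasDerivAt
    have h3 : HasDerivAt (fun x => p (mob w x)) (deriv p w * deriv (mob w) 0) 0 := h1.comp 0 h2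
    rw [h3.deriv, norm_mul, mob_deriv_zero_norm hw1, ← mul_assoc, hr]
    field_simp
  · intro f hf hfm hf0
    obtain ⟨g, hgd, hgm, hg0, hg⟩ := hp.lift hf hfm (x0 := 0) (by simp) hw (by rw [hpw, hf0])
    refine ⟨fun x => mob w (g x), (mob_differentiableOn hw1).comp hgd hgm,
      (mob_mapsTo hw1).comp hgm, ?_, ?_⟩
    · simp only
      rw [hg0, mob_self]
    · intro x hx
      simp only
      rw [mob_mob hw1 (by simpa using hgm hx), hg x hx]
  · intro hDo hD
    exact (hp.injOn hDo hD).comp (mob_injOn hw1) (mob_mapsTo hw1)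

/-- The density is well defined. -/
theorem IsHypDensity.unique {D : Set ℂ} {z : ℂ} {r r' : ℝ} (h : IsHypDensity D z r)
    (h' : IsHypDensity D z r') : r = r' := by
  have key : ∀ {r r' : ℝ}, IsHypDensity D z r → IsHypDensity D z r' → r ≤ r' := by
    intro r r' h h'
    obtain ⟨P, hPd, hPm, hP0, hPr, hPl, -⟩ := h
      |>.exists_normalised
    obtain ⟨Q, hQd, hQm, hQ0, hQr, -, -⟩ := h'.exists_normalised
    obtain ⟨g, hgd, hgm, hg0, hg⟩ := hPl Q hQd hQm hQ0
    have h1 : ‖deriv g 0‖ ≤ 1 := Complex.norm_deriv_le_one_of_mapsTo_ball hgd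
      (by rw [hg0]; exact hgm.mono_right ball_subset_closedBall) one_pos
    have hP' : HasDerivAt P (deriv P 0) (g 0) := by
      rw [hg0]
      exact ((hPd 0 (by simp)).differentiableAt (isOpen_ball.mem_nhds (by simp))).hasDerivAt
    have hg' : HasDerivAt g (deriv g 0) 0 :=
      ((hgd 0 (by simp)).differentiableAt (isOpen_ball.mem_nhds (by simp))).hasDerivAt
    have h2 := hP'.comp 0 hg'
    have h3 : (P ∘ g) =ᶠ[𝓝 0] Q := by
      filter_upwards [ball_mem_nhds (0:ℂ) one_pos] with x hx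
      exact hg x hx
    have h4 : ‖deriv Q 0‖ = ‖deriv P 0‖ * ‖deriv g 0‖ := by
      rw [← h3.deriv_eq, h2.deriv, norm_mul]
    have hr' : 0 < r' := by
      by_contra hcon
      push Not at hcon
      have : r' * ‖deriv Q 0‖ ≤ 0 := mul_nonpos_of_nonpos_of_nonneg hcon (norm_nonneg _)
      linarith
    have hP1 : 0 < ‖deriv P 0‖ := by
      rcases (norm_nonneg (deriv P 0)).eq_or_lt with h5 | h5
      · rw [← h5, mul_zero] at hPr; exact absurd hPr zero_ne_one
      · exact h5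
    have h6 : ‖deriv Q 0‖ ≤ ‖deriv P 0‖ := by
      rw [h4]; exact mul_le_of_le_one_right (norm_nonneg _) h1
    have e1 : r = 1 / ‖deriv P 0‖ := by rw [eq_div_iff hP1.ne']; exact hPr
    have hQ1 : 0 < ‖deriv Q 0‖ := by
      rcases (norm_nonneg (deriv Q 0)).eq_or_lt with h5 | h5
      · rw [← h5, mul_zero] at hQr; exact absurd hQr zero_ne_one
      · exact h5
    have e2 : r' = 1 / ‖deriv Q 0‖ := by rw [eq_div_iff hQ1.ne']; exact hQr
    rw [e1, e2]
    exact one_div_le_one_div_of_le hQ1 h6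
  exact le_antisymm (key h h') (key h' h)

end Pool.Agent.Hhelper68
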